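import Pool.Agent.OHG.All

/-!
# The exact degree two part of the formal Gaussian integral of a splice diagram
-/

set_option autoImplicit false

open PowerSeries Finset

namespace Pool.Agent.H42.GS

open Pool.Agent.OHG

variable {V : Type} [Fintype V] [DecidableEq V]

private lemma k2_coeff_mul (f g : ℝ⟦X⟧) (hf : coeff 0 f = 1) (hg : coeff 0 g = 1) :
    coeff 0 (f * g) = 1 ∧ coeff 1 (f * g) = coeff 1 f + coeff 1 g ∧
    coeff 2 (f * g) - (coeff 1 (f * g)) ^ 2 / 2 =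
      (coeff 2 f - (coeff 1 f) ^ 2 / 2) + (coeff 2 g - (coeff 1 g) ^ 2 / 2) := by
  have h0 : coeff 0 (f * g) = 1 := by
    rw [coeff_mul, Nat.antidiagonal_zero, sum_singleton, hf, hg, one_mul]
  have h1 : coeff 1 (f * g) = coeff 1 f + coeff 1 g := by
    rw [coeff_mul, Nat.antidiagonal_succ, sum_cons, Nat.antidiagonal_zero]
    simp only [Finset.map_singleton, sum_singleton, Function.Embedding.prodMap,
      Function.Embedding.coeFn_mk, Prod.map, Function.Embedding.refl_apply, Nat.succ_eq_add_one,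
      zero_add]
    rw [hf, hg]
    ring
  have h2 : coeff 2 (f * g) = coeff 2 f + coeff 1 f * coeff 1 g + coeff 2 g := by
    rw [coeff_mul]
    have e : antidiagonal 2 = {((0 : ℕ), (2 : ℕ)), (1, 1), (2, 0)} := by decide
    rw [e, sum_insert (by decide), sum_insert (by decide), sum_singleton]
    simp only []
    rw [hf, hg]
    ring
  refine ⟨h0, h1, ?_⟩
  rw [h1, h2]
  ring

private lemma k2_sinhc (k : ℕ) : coeff 0 (sinhc k) = 1 ∧ coeff 1 (sinhc k) = 1 / 24 * (1 / (k : ℝ) ^ 2) ∧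
    coeff 2 (sinhc k) - (coeff 1 (sinhc k)) ^ 2 / 2 = -(1 / 2880 * (1 / (k : ℝ) ^ 4)) := by
  have h1 : coeff 1 (sinhc k) = 1 / 24 * (1 / (k : ℝ) ^ 2) := by
    rw [sinhc, coeff_mk]
    have : (((2 * 1 + 1).factorial : ℕ) : ℝ) = 6 := by norm_num [Nat.factorial]
    rw [this]
    rw [one_div, one_div, one_div, mul_inv, mul_pow, mul_inv]
    norm_num
    ring
  have h2 : coeff 2 (sinhc k) = 1 / 1920 * (1 / (k : ℝ) ^ 4) := by
    rw [sinhc, coeff_mk]
    have : (((2 * 2 + 1).factorial : ℕ) : ℝ) = 120 := by norm_num [Nat.factorial]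
    rw [this]
    rw [one_div, one_div, one_div, mul_inv, mul_pow, mul_inv]
    norm_num
    ring
  refine ⟨?_, h1, ?_⟩
  · rw [sinhc, coeff_mk]
    simp
  · rw [h1, h2]
    have : (1 / (k : ℝ) ^ 4) = (1 / (k : ℝ) ^ 2) ^ 2 := by
      rw [div_pow, one_pow, ← pow_mul]
    rw [this]
    ring

private lemma k2_prod (S : Finset ℕ) : coeff 0 (∏ k ∈ S, sinhc k) = 1 ∧
    coeff 1 (∏ k ∈ S, sinhc k) = 1 / 24 * ∑ k ∈ S, 1 / (k : ℝ) ^ 2 ∧
    coeff 2 (∏ k ∈ S, sinhc k) - (coeff 1 (∏ k ∈ S, sinhc k)) ^ 2 / 2 =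
      -(1 / 2880 * ∑ k ∈ S, 1 / (k : ℝ) ^ 4) := by
  induction S using Finset.induction_on with
  | empty => simp [coeff_one]
  | insert a s ha ih =>
    rw [prod_insert ha, sum_insert ha, sum_insert ha]
    obtain ⟨i0, i1, i2⟩ := ih
    obtain ⟨s0, s1, s2⟩ := k2_sinhc a
    obtain ⟨m0, m1, m2⟩ := k2_coeff_mul _ _ s0 i0
    refine ⟨m0, ?_, ?_⟩
    · rw [m1, s1, i1]; ring
    · rw [m2, s2, i2]; ring

private lemma k2_inv : coeff 0 ((sinhc 1)⁻¹) = 1 ∧ coeff 1 ((sinhc 1)⁻¹) = -(1 / 24) ∧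
    coeff 2 ((sinhc 1)⁻¹) - (coeff 1 ((sinhc 1)⁻¹)) ^ 2 / 2 = 1 / 2880 := by
  obtain ⟨s0, s1, s2⟩ := k2_sinhc 1
  have hc : constantCoeff (sinhc 1) = 1 := by
    rw [← coeff_zero_eq_constantCoeff_apply]; exact s0
  have hne : constantCoeff (sinhc 1) ≠ 0 := by rw [hc]; exact one_ne_zero
  have hmul := PowerSeries.mul_inv_cancel (sinhc 1) hne
  have i0 : coeff 0 ((sinhc 1)⁻¹) = 1 := by
    rw [coeff_zero_eq_constantCoeff_apply, constantCoeff_inv, hc, inv_one]
  obtain ⟨m0, m1, m2⟩ := k2_coeff_mul _ _ s0 i0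
  rw [hmul] at m1 m2
  rw [s1] at m1
  rw [s2] at m2
  have o1 : coeff 1 (1 : ℝ⟦X⟧) = 0 := by simp [coeff_one]
  have o2 : coeff 2 (1 : ℝ⟦X⟧) = 0 := by simp [coeff_one]
  rw [o1] at m1 m2
  rw [o2] at m2
  refine ⟨i0, ?_, ?_⟩
  · norm_num at m1 ⊢
    linarith
  · norm_num at m2 ⊢
    linarith

private lemma k2_pow (f : ℝ⟦X⟧) (hf : coeff 0 f = 1) (m : ℕ) : coeff 0 (f ^ m) = 1 ∧
    coeff 1 (f ^ m) = m * coeff 1 f ∧
    coeff 2 (f ^ m) - (coeff 1 (f ^ m)) ^ 2 / 2 = m * (coeff 2 f - (coeff 1 f) ^ 2 / 2) := by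
  induction m with
  | zero => simp [coeff_one]
  | succ m ih =>
    rw [pow_succ]
    obtain ⟨i0, i1, i2⟩ := ih
    obtain ⟨m0, m1, m2⟩ := k2_coeff_mul _ _ i0 hf
    refine ⟨m0, ?_, ?_⟩
    · rw [m1, i1]; push_cast; ring
    · rw [m2, i2]; push_cast; ring

lemma k2_nod (p : Finset ℕ) (m : ℕ) :
    coeff 0 ((∏ k ∈ p, sinhc k) * ((sinhc 1)⁻¹) ^ m) = 1 ∧
    coeff 1 ((∏ k ∈ p, sinhc k) * ((sinhc 1)⁻¹) ^ m) =
      1 / 24 * ((∑ k ∈ p, 1 / (k : ℝ) ^ 2) - m) ∧
    coeff 2 ((∏ k ∈ p, sinhc k) * ((sinhc 1)⁻¹) ^ m) -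
      (coeff 1 ((∏ k ∈ p, sinhc k) * ((sinhc 1)⁻¹) ^ m)) ^ 2 / 2 =
      1 / 2880 * (m - ∑ k ∈ p, 1 / (k : ℝ) ^ 4) := by
  obtain ⟨p0, p1, p2⟩ := k2_prod p
  obtain ⟨i0, i1, i2⟩ := k2_inv
  obtain ⟨q0, q1, q2⟩ := k2_pow _ i0 m
  obtain ⟨m0, m1, m2⟩ := k2_coeff_mul _ _ p0 q0
  refine ⟨m0, ?_, ?_⟩
  · rw [m1, p1, q1, i1]; ring
  · rw [m2, p2, q2, i2]; ring


private theorem k3_mem (j : V → ℕ) (n : ℕ) : j ∈ (univ : Finset V).piAntidiag n ↔ ∑ v, j v = n := by
  rw [mem_piAntidiag]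
  simp

private theorem k3_sum_single (v : V) (k : ℕ) : ∑ w, (Pi.single v k : V → ℕ) w = k := by
  rw [sum_eq_single v]
  · simp
  · intro w _ hw
    exact Pi.single_eq_of_ne hw _
  · intro h
    exact absurd (mem_univ v) h

private theorem k3_exists {j : V → ℕ} {n : ℕ} (h : ∑ v, j v = n + 1) :
    ∃ v, ∃ j' : V → ℕ, j = Pi.single v 1 + j' ∧ ∑ v, j' v = n := by
  obtain ⟨v, -, hv⟩ : ∃ v ∈ (univ : Finset V), j v ≠ 0 := by
    by_contra hcon
    push Not at hcon
    rw [sum_eq_zero hcon] at h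
    omega
  refine ⟨v, fun w => j w - (Pi.single v 1 : V → ℕ) w, ?_, ?_⟩
  · funext w
    simp only [Pi.add_apply]
    by_cases hw : w = v
    · subst hw
      simp
      omega
    · simp [Pi.single_eq_of_ne hw]
  · have h1 : ∑ w, j w = ∑ w, (Pi.single v 1 : V → ℕ) w +
        ∑ w, (j w - (Pi.single v 1 : V → ℕ) w) := by
      rw [← sum_add_distrib]
      refine sum_congr rfl fun w _ => ?_
      by_cases hw : w = v
      · subst hw
        simp
        omega
      · simp [Pi.single_eq_of_ne hw]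
    rw [h, k3_sum_single] at h1
    exact (Nat.add_left_cancel ((add_comm 1 n).trans h1)).symm

private theorem k3_eq {j : V → ℕ} (h : ∑ v, j v = 1) : ∃ v, j = Pi.single v 1 := by
  obtain ⟨v, j', rfl, h'⟩ := k3_exists (n := 0) h
  refine ⟨v, ?_⟩
  have : j' = 0 := by
    funext w
    exact (sum_eq_zero_iff.mp h') w (mem_univ w)
  rw [this, add_zero]

private theorem k3_sum_one (F : (V → ℕ) → ℝ) :
    ∑ j ∈ (univ : Finset V).piAntidiag 1, F j = ∑ v, F (Pi.single v 1) := by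
  symm
  refine sum_bij (fun v _ => Pi.single v 1) ?_ ?_ ?_ ?_
  · intro v _
    rw [k3_mem, k3_sum_single]
  · intro v _ w _ hvw
    by_contra hne
    have := congrFun hvw v
    simp [Pi.single_eq_of_ne hne] at this
  · intro j hj
    rw [k3_mem] at hj
    obtain ⟨v, rfl⟩ := k3_eq hj
    exact ⟨v, mem_univ v, rfl⟩
  · intro v _
    rfl

omit [Fintype V] in
private theorem k3_pair {a b c d : V} (hcd : c ≠ d)
    (h : (Pi.single c 1 + Pi.single d 1 : V → ℕ) = Pi.single a 1 + Pi.single b 1) :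
    (c = a ∧ d = b) ∨ (c = b ∧ d = a) := by
  have hc := congrFun h c
  have hd := congrFun h d
  simp only [Pi.add_apply, Pi.single_eq_same, Pi.single_eq_of_ne hcd,
    Pi.single_eq_of_ne hcd.symm] at hc hd
  by_cases h1 : c = a
  · left
    refine ⟨h1, ?_⟩
    by_contra h2
    have h3 : d ≠ a := fun h => hcd (h1.trans h.symm)
    simp [Pi.single_eq_of_ne h2, Pi.single_eq_of_ne h3] at hd
  · right
    have h2 : c = b := by
      by_contra h2
      simp [Pi.single_eq_of_ne h1, Pi.single_eq_of_ne h2] at hc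
    refine ⟨h2, ?_⟩
    by_contra h3
    have h4 : d ≠ b := fun h => hcd (h2.trans h.symm)
    simp [Pi.single_eq_of_ne h3, Pi.single_eq_of_ne h4] at hd

private theorem k3_sum_two (F : (V → ℕ) → ℝ) :
    2 * ∑ j ∈ (univ : Finset V).piAntidiag 2, F j = 2 * ∑ v, F (Pi.single v 2) +
      ∑ p ∈ (univ : Finset V).offDiag, F (Pi.single p.1 1 + Pi.single p.2 1) := by
  classical
  let S := (univ : Finset V).piAntidiag 2
  rw [← sum_filter_add_sum_filter_not S (fun j => ∃ v, j = Pi.single v 2), mul_add]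
  congr 1
  · congr 1
    symm
    refine sum_bij (fun v _ => Pi.single v 2) ?_ ?_ ?_ ?_
    · intro v _
      rw [mem_filter, k3_mem, k3_sum_single]
      exact ⟨rfl, v, rfl⟩
    · intro v _ w _ hvw
      by_contra hne
      have := congrFun hvw v
      simp [Pi.single_eq_of_ne hne] at this
    · intro j hj
      obtain ⟨-, v, rfl⟩ := mem_filter.mp hj
      exact ⟨v, mem_univ v, rfl⟩
    · intro v _
      rfl
  · have hmaps : ∀ p ∈ (univ : Finset V).offDiag, (Pi.single p.1 1 + Pi.single p.2 1 : V → ℕ) ∈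
        S.filter (fun j => ¬ ∃ v, j = Pi.single v 2) := by
      rintro ⟨a, b⟩ hp
      have hab : a ≠ b := (mem_offDiag.mp hp).2.2
      rw [mem_filter, k3_mem]
      refine ⟨?_, ?_⟩
      · simp only [Pi.add_apply, sum_add_distrib, k3_sum_single]
      · rintro ⟨v, hv⟩
        have ha := congrFun hv a
        simp only [Pi.add_apply, Pi.single_eq_same, Pi.single_eq_of_ne hab] at ha
        by_cases hav : a = v
        · subst hav
          simp at ha
        · simp [Pi.single_eq_of_ne hav] at ha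
    rw [← sum_fiberwise_of_maps_to hmaps, mul_sum]
    refine sum_congr rfl fun j hj => ?_
    obtain ⟨hj1, hj2⟩ := mem_filter.mp hj
    rw [k3_mem] at hj1
    obtain ⟨a, j', rfl, h'⟩ := k3_exists (n := 1) hj1
    obtain ⟨b, rfl⟩ := k3_eq h'
    have hab : a ≠ b := by
      rintro rfl
      exact hj2 ⟨a, by rw [← Pi.single_add]⟩
    have hfib : (univ : Finset V).offDiag.filter
        (fun p => (Pi.single p.1 1 + Pi.single p.2 1 : V → ℕ) = Pi.single a 1 + Pi.single b 1) =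
        {(a, b), (b, a)} := by
      ext ⟨c, d⟩
      simp only [mem_filter, mem_offDiag, mem_univ, true_and, mem_insert, mem_singleton,
        Prod.mk.injEq]
      constructor
      · rintro ⟨hcd, h⟩
        exact k3_pair hcd h
      · rintro (⟨rfl, rfl⟩ | ⟨rfl, rfl⟩)
        · exact ⟨hab, rfl⟩
        · exact ⟨hab.symm, add_comm _ _⟩
    rw [sum_congr rfl (g := fun _ => F (Pi.single a 1 + Pi.single b 1)) (fun p hp => by
      rw [(mem_filter.mp hp).2]), sum_const, hfib,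
      card_pair (by simp [hab]), nsmul_eq_mul]
    norm_num


/-- minus the coefficient of `y` in the integrand at `v` -/
noncomputable def bet (D : Data V) (v : V) : ℝ :=
  1 / 24 * (((D.val v - 2 : ℕ) : ℝ) - ∑ k ∈ D.leaf v, 1 / (k : ℝ) ^ 2)

/-- the coefficient of `y ^ 2` in the logarithm of the integrand at `v` -/
noncomputable def bet2 (D : Data V) (v : V) : ℝ :=
  1 / 2880 * (((D.val v - 2 : ℕ) : ℝ) - ∑ k ∈ D.leaf v, 1 / (k : ℝ) ^ 4)

private theorem node_zero (D : Data V) (v : V) : coeff 0 (node D v) = 1 := (k2_nod _ _).1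

private theorem node_one (D : Data V) (v : V) : coeff 1 (node D v) = -bet D v := by
  unfold node bet
  rw [(k2_nod _ _).2.1]
  ring

private theorem node_two (D : Data V) (v : V) :
    coeff 2 (node D v) = bet D v ^ 2 / 2 + bet2 D v := by
  have h := (k2_nod (D.leaf v) (D.val v - 2)).2.2
  have h1 := node_one D v
  unfold node at h1 ⊢
  rw [h1] at h
  unfold bet2
  linarith

private theorem k3_prod (D : Data V) (v : V) (k : ℕ) :
    ∏ u, coeff ((Pi.single v k : V → ℕ) u) (node D u) = coeff k (node D v) := by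
  rw [prod_eq_single v]
  · simp
  · intro u _ hu
    rw [Pi.single_eq_of_ne hu, node_zero]
  · intro h
    exact absurd (mem_univ v) h

private theorem k3_prod' (D : Data V) {v w : V} (hvw : v ≠ w) :
    ∏ u, coeff ((Pi.single v 1 + Pi.single w 1 : V → ℕ) u) (node D u) =
      coeff 1 (node D v) * coeff 1 (node D w) := by
  rw [← mul_prod_erase univ _ (mem_univ v), ← mul_prod_erase (univ.erase v) _
    (mem_erase.mpr ⟨hvw.symm, mem_univ w⟩), prod_eq_one, mul_one]
  · congr 2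
    · simp [Pi.single_eq_of_ne hvw]
    · simp [Pi.single_eq_of_ne hvw.symm]
  · intro u hu
    obtain ⟨h1, h2⟩ := mem_erase.mp hu
    obtain ⟨h2, -⟩ := mem_erase.mp h2
    rw [Pi.add_apply, Pi.single_eq_of_ne h1, Pi.single_eq_of_ne h2, add_zero, node_zero]

/-- **The degree two part.** -/
theorem part_two_exact (D : Data V) :
    coeff 2 (part D) - (coeff 1 (part D)) ^ 2 / 2 =
      60 * ∑ v, bet2 D v * (D.lk v v : ℝ) ^ 2 +
      12 * ∑ v, ∑ w, bet D v * bet D w * (D.lk v w : ℝ) ^ 2 := by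
  set β : V → ℝ := fun v => bet D v with hβ
  set γ : V → ℝ := fun v => bet2 D v with hγ
  set l : V → ℝ := fun v => D.lk v v with hl
  have a1 : coeff 1 (part D) = -6 * ∑ v, β v * l v := by
    unfold part
    rw [coeff_mk, k3_sum_one, mul_sum]
    refine sum_congr rfl fun v _ => ?_
    rw [k3_prod, moment_one, node_one]
    simp only [hβ, hl]
    ring
  have a2 : 2 * coeff 2 (part D) = 120 * ∑ v, (β v ^ 2 / 2 + γ v) * l v ^ 2 +
      ∑ p ∈ (univ : Finset V).offDiag, β p.1 * β p.2 *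
        (36 * l p.1 * l p.2 + 24 * (D.lk p.1 p.2 : ℝ) ^ 2) := by
    unfold part
    rw [coeff_mk, k3_sum_two]
    congr 1
    · rw [mul_sum, mul_sum]
      refine sum_congr rfl fun v _ => ?_
      rw [k3_prod, moment_two, node_two]
      simp only [hγ, hβ, hl]
      ring
    · refine sum_congr rfl fun p hp => ?_
      have hp' : p.1 ≠ p.2 := (mem_offDiag.mp hp).2.2
      rw [k3_prod' D hp', moment_pair D hp', node_one, node_one]
      simp only [hβ, hl]
      ring
  have split : ∀ G : V → V → ℝ, ∑ v, ∑ w, G v w =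
      ∑ v, G v v + ∑ p ∈ (univ : Finset V).offDiag, G p.1 p.2 := by
    intro G
    rw [← sum_product', ← diag_union_offDiag (univ : Finset V),
      sum_union (disjoint_diag_offDiag univ), sum_diag]
  have sq : (∑ v, β v * l v) ^ 2 = ∑ v, ∑ w, β v * l v * (β w * l w) := by
    rw [sq, sum_mul_sum]
  have e1 := split fun v w => β v * l v * (β w * l w)
  have e2 := split fun v w => β v * β w * (D.lk v w : ℝ) ^ 2
  have e3 : ∑ p ∈ (univ : Finset V).offDiag, β p.1 * β p.2 *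
        (36 * l p.1 * l p.2 + 24 * (D.lk p.1 p.2 : ℝ) ^ 2) =
      36 * ∑ p ∈ (univ : Finset V).offDiag, β p.1 * l p.1 * (β p.2 * l p.2) +
      24 * ∑ p ∈ (univ : Finset V).offDiag, β p.1 * β p.2 * (D.lk p.1 p.2 : ℝ) ^ 2 := by
    rw [mul_sum, mul_sum, ← sum_add_distrib]
    refine sum_congr rfl fun p _ => ?_
    ring
  have e4 : ∑ v, (β v ^ 2 / 2 + γ v) * l v ^ 2 =
      1 / 2 * ∑ v, β v * β v * (D.lk v v : ℝ) ^ 2 + ∑ v, γ v * (D.lk v v : ℝ) ^ 2 := by
    rw [mul_sum, ← sum_add_distrib]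
    refine sum_congr rfl fun v _ => ?_
    simp only [hl]
    ring
  have e5 : ∑ v, β v * l v * (β v * l v) = ∑ v, β v * β v * (D.lk v v : ℝ) ^ 2 := by
    refine sum_congr rfl fun v _ => ?_
    simp only [hl]
    ring
  rw [a1]
  have e7 : (-6 * ∑ v, β v * l v) ^ 2 = 36 * (∑ v, β v * l v) ^ 2 := by ring
  rw [e7, sq, e1, e5, e2]
  rw [e3, e4] at a2
  linarith

end Pool.Agent.H42.GS
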