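import Mathlib

/-!
# Sums over the leaf weights at a node

Bounds for `∑ 1 / k ^ 2`, `∑ 1 / k ^ 4` and `∏ k` over a finite set of integers `≥ 2` with at least two
elements, and over a pairwise coprime one with at least three elements.
-/

set_option autoImplicit false

open Finset

namespace Pool.Agent.H42.GS

/-- `T ⊆ s` has `m` elements, the other elements contribute at most `1` each. -/
private theorem sum_le {s T : Finset ℕ} (hT : T ⊆ s) (h1 : ∀ k ∈ s, 2 ≤ k) (e : ℕ) {c : ℝ}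
    (hc : ∑ k ∈ T, 1 / (k : ℝ) ^ e ≤ c) :
    ∑ k ∈ s, 1 / (k : ℝ) ^ e ≤ (s.card : ℝ) - T.card + c := by
  rw [← sum_sdiff hT]
  have h2 : ∑ k ∈ s \ T, 1 / (k : ℝ) ^ e ≤ ∑ k ∈ s \ T, (1 : ℝ) := by
    refine sum_le_sum fun k hk => ?_
    have hk2 : (2 : ℝ) ≤ k := by exact_mod_cast h1 k (mem_sdiff.1 hk).1
    rw [div_le_one (by positivity)]
    exact one_le_pow₀ (by linarith)
  rw [sum_const, nsmul_eq_mul, mul_one, card_sdiff_of_subset hT,
    Nat.cast_sub (card_le_card hT)] at h2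
  linarith

private theorem prod_ge {s T : Finset ℕ} (hT : T ⊆ s) (h1 : ∀ k ∈ s, 2 ≤ k) :
    ∏ k ∈ T, k ≤ ∏ k ∈ s, k := by
  refine prod_le_prod_of_subset_of_one_le' hT fun i hi _ => ?_
  have := h1 i hi
  omega

/-- if the products agree, the sets agree -/
private theorem eq_of_prod {s T : Finset ℕ} (hT : T ⊆ s) (h1 : ∀ k ∈ s, 2 ≤ k)
    (he : ∏ k ∈ s, k = ∏ k ∈ T, k) : s = T := by
  by_contra hne
  obtain ⟨x, hx, hxT⟩ := exists_of_ssubset (lt_of_le_of_ne hT (Ne.symm hne))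
  have h2 : ∏ k ∈ insert x T, k ≤ ∏ k ∈ s, k :=
    prod_ge (insert_subset hx hT) h1
  rw [prod_insert hxT, he] at h2
  have h3 : 0 < ∏ k ∈ T, k := prod_pos fun k hk => by
    have := h1 k (hT hk)
    omega
  have h4 := h1 x hx
  nlinarith

private theorem inv_le {a b : ℕ} (ha : 1 ≤ a) (h : a ≤ b) (e : ℕ) :
    1 / (b : ℝ) ^ e ≤ 1 / (a : ℝ) ^ e := by
  have h1 : (0 : ℝ) < a := by exact_mod_cast ha
  have h2 : (a : ℝ) ≤ b := by exact_mod_cast h
  exact one_div_le_one_div_of_le (by positivity) (pow_le_pow_left₀ h1.le h2 e)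

/-- Two leaf weights. -/
theorem pair_bounds {s : Finset ℕ} (h1 : ∀ k ∈ s, 2 ≤ k) (h2 : 2 ≤ s.card) :
    ∑ k ∈ s, 1 / (k : ℝ) ^ 2 ≤ (s.card : ℝ) - 2 + 13 / 36 ∧
    ∑ k ∈ s, 1 / (k : ℝ) ^ 4 ≤ (s.card : ℝ) - 2 + 97 / 1296 ∧
    6 ≤ ∏ k ∈ s, k ∧ (∏ k ∈ s, k = 6 → s = {2, 3}) := by
  obtain ⟨T, hT, hTc⟩ := exists_subset_card_eq h2
  obtain ⟨a, b, hab, rfl⟩ : ∃ a b, a < b ∧ T = {a, b} := by
    obtain ⟨a, b, hne, rfl⟩ := card_eq_two.1 hTc
    rcases lt_or_gt_of_ne hne with h | h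
    · exact ⟨a, b, h, rfl⟩
    · exact ⟨b, a, h, pair_comm a b⟩
  have ha : 2 ≤ a := h1 a (hT (by simp))
  have hb : 3 ≤ b := by omega
  have hpr : ∏ k ∈ ({a, b} : Finset ℕ), k = a * b := prod_pair hab.ne
  have hsum : ∀ e : ℕ, ∑ k ∈ ({a, b} : Finset ℕ), 1 / (k : ℝ) ^ e ≤
      1 / ((2 : ℕ) : ℝ) ^ e + 1 / ((3 : ℕ) : ℝ) ^ e := by
    intro e
    rw [sum_pair hab.ne]
    exact add_le_add (inv_le (by norm_num) ha e) (inv_le (by norm_num) hb e)
  have hc2 : ((({a, b} : Finset ℕ).card : ℕ) : ℝ) = 2 := by rw [hTc]; norm_num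
  refine ⟨?_, ?_, ?_, fun he => ?_⟩
  · have := sum_le hT h1 2 (hsum 2)
    rw [hc2] at this
    norm_num at this ⊢
    linarith
  · have := sum_le hT h1 4 (hsum 4)
    rw [hc2] at this
    norm_num at this ⊢
    linarith
  · have := prod_ge hT h1
    rw [hpr] at this
    nlinarith
  · have h3 := prod_ge hT h1
    rw [hpr, he] at h3
    have ha' : a ≤ 2 := by
      by_contra hcon
      push Not at hcon
      nlinarith
    have ha2 : a = 2 := by omega
    have hb3 : b = 3 := by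
      subst ha2
      omega
    subst ha2 hb3
    exact eq_of_prod hT h1 (by rw [he, hpr])

/-- Three pairwise coprime leaf weights. -/
theorem triple_bounds {s : Finset ℕ} (h1 : ∀ k ∈ s, 2 ≤ k)
    (hco : ∀ k ∈ s, ∀ l ∈ s, k ≠ l → Nat.Coprime k l) (h3 : 3 ≤ s.card) :
    ∑ k ∈ s, 1 / (k : ℝ) ^ 2 ≤ (s.card : ℝ) - 3 + 361 / 900 ∧
    ∑ k ∈ s, 1 / (k : ℝ) ^ 4 ≤ (s.card : ℝ) - 3 + 61921 / 810000 ∧
    30 ≤ ∏ k ∈ s, k ∧ (∏ k ∈ s, k = 30 → s = {2, 3, 5}) := by
  obtain ⟨T, hT, hTc⟩ := exists_subset_card_eq h3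
  obtain ⟨a, b, c, hab, hbc, rfl⟩ : ∃ a b c, a < b ∧ b < c ∧ T = {a, b, c} := by
    refine ⟨T.orderEmbOfFin hTc 0, T.orderEmbOfFin hTc 1, T.orderEmbOfFin hTc 2, ?_, ?_, ?_⟩
    · exact (T.orderEmbOfFin hTc).strictMono (by decide)
    · exact (T.orderEmbOfFin hTc).strictMono (by decide)
    · ext x
      constructor
      · intro hx
        have : x ∈ Set.range (T.orderEmbOfFin hTc) := by
          rw [range_orderEmbOfFin]
          exact hx
        obtain ⟨i, rfl⟩ := this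
        fin_cases i <;> simp
      · intro hx
        simp only [mem_insert, mem_singleton] at hx
        rcases hx with rfl | rfl | rfl <;> exact orderEmbOfFin_mem _ _ _
  have ha : 2 ≤ a := h1 a (hT (by simp))
  have hb : 3 ≤ b := by omega
  have hac : Nat.Coprime a c := hco a (hT (by simp)) c (hT (by simp)) (by omega)
  have hbc' : Nat.Coprime b c := hco b (hT (by simp)) c (hT (by simp)) (by omega)
  have hc : 5 ≤ c := by
    by_contra hcon
    have hc4 : c = 4 := by omega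
    have hb3 : b = 3 := by omega
    have ha2 : a = 2 := by omega
    subst hc4 ha2
    exact absurd hac (by decide)
  have hne1 : a ∉ ({b, c} : Finset ℕ) := by
    simp only [mem_insert, mem_singleton]
    omega
  have hpr : ∏ k ∈ ({a, b, c} : Finset ℕ), k = a * (b * c) := by
    rw [prod_insert hne1, prod_pair hbc.ne]
  have hsum : ∀ e : ℕ, ∑ k ∈ ({a, b, c} : Finset ℕ), 1 / (k : ℝ) ^ e ≤
      1 / ((2 : ℕ) : ℝ) ^ e + (1 / ((3 : ℕ) : ℝ) ^ e + 1 / ((5 : ℕ) : ℝ) ^ e) := by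
    intro e
    rw [sum_insert hne1, sum_pair hbc.ne]
    exact add_le_add (inv_le (by norm_num) ha e)
      (add_le_add (inv_le (by norm_num) hb e) (inv_le (by norm_num) hc e))
  have hc3 : ((({a, b, c} : Finset ℕ).card : ℕ) : ℝ) = 3 := by rw [hTc]; norm_num
  have habc : 30 ≤ a * (b * c) := by
    have : 15 ≤ b * c := by nlinarith
    nlinarith
  refine ⟨?_, ?_, ?_, fun he => ?_⟩
  · have := sum_le hT h1 2 (hsum 2)
    rw [hc3] at this
    norm_num at this ⊢
    linarith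
  · have := sum_le hT h1 4 (hsum 4)
    rw [hc3] at this
    norm_num at this ⊢
    linarith
  · have := prod_ge hT h1
    rw [hpr] at this
    omega
  · have h4 := prod_ge hT h1
    rw [hpr, he] at h4
    have h15 : 15 ≤ b * c := by nlinarith
    have ha2 : a = 2 := by
      by_contra hcon
      have : 3 ≤ a := by omega
      nlinarith
    have hbc15 : b * c = 15 := by
      subst ha2
      omega
    have hb3 : b = 3 := by
      by_contra hcon
      have : 4 ≤ b := by omega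
      nlinarith
    have hc5 : c = 5 := by
      subst hb3
      omega
    subst ha2 hb3 hc5
    exact eq_of_prod hT h1 (by rw [he, hpr])

end Pool.Agent.H42.GS
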