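import Pool.Agent.H42.GS.Walk
import Pool.Agent.H42.GS.Exact
import Pool.Agent.H42.GS.Leaf

/-!
# The sharp lower bound for the degree two part
-/

set_option autoImplicit false

open PowerSeries Finset

namespace Pool.Agent.H42.GS

open Pool.Agent.OHG

variable {V : Type} [Fintype V] [DecidableEq V]

/-- the diagram of the Poincare sphere: one node, leaves `2, 3, 5` -/
def Poinc (D : Data V) : Prop :=
  (∀ v w : V, v = w) ∧ ∀ v, D.leaf v = {2, 3, 5}

/-- the diagrams of the splices of two trefoil exteriors: two nodes with the leaves `2, 3`, weights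
`1` or `-1` of the edge between them -/
def Trefoils (D : Data V) : Prop :=
  Fintype.card V = 2 ∧ (∀ v, D.leaf v = {2, 3}) ∧ ∀ v w, v ≠ w → (D.wt v w) ^ 2 = 1

theorem bet_pos {D : Data V} (h : D.IsGraph) (v : V) : 1 / 96 ≤ bet D v := by
  have h1 := nod_one (h.two_le v) (m := D.val v - 2) (by have := h.three_le v; omega)
  have h2 := (k2_nod (D.leaf v) (D.val v - 2)).2.1
  rw [h2] at h1
  unfold bet
  linarith

theorem bet2_nonneg {D : Data V} (h : D.IsGraph) (v : V) : 0 ≤ bet2 D v := by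
  have h1 := nod_two (h.two_le v) (m := D.val v - 2) (by have := h.three_le v; omega)
  have h2 := (k2_nod (D.leaf v) (D.val v - 2)).2.2
  unfold bet2
  linarith

private theorem lkv_sq {D : Data V} (h : D.IsGraph) (v : V) :
    ((D.lk v v : ℤ) : ℝ) ^ 2 = ((lp D v : ℕ) : ℝ) ^ 2 * (∏ x ∈ D.nbr v, ((D.wt v x : ℤ) : ℝ)) ^ 2 := by
  rw [lk_self h v]
  have hs : (D.sgn v) ^ 2 = 1 := by
    rcases h.sign v with h' | h' <;> rw [h'] <;> norm_num
  have hs' : ((D.sgn v : ℤ) : ℝ) ^ 2 = 1 := by exact_mod_cast hs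
  unfold lp
  push_cast
  rw [mul_pow, mul_pow, hs', one_mul]

/-- **One node.** -/
theorem one_node {D : Data V} (h : D.IsGraph) (hV : ∀ v w : V, v = w) (v : V) :
    (577 / 24 : ℝ) ≤ coeff 2 (part D) - (coeff 1 (part D)) ^ 2 / 2 ∧
    (coeff 2 (part D) - (coeff 1 (part D)) ^ 2 / 2 = 577 / 24 ↔ D.leaf v = {2, 3, 5}) := by
  have huniv : (univ : Finset V) = {v} := by
    ext w
    simp [hV w v]
  have hnbr : D.nbr v = ∅ := by
    rw [eq_empty_iff_forall_notMem]
    intro w hw
    exact (mem_nbr.1 hw).ne (hV v w)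
  have hval : D.val v = (D.leaf v).card := by
    unfold Data.val
    rw [hnbr, card_empty, add_zero]
  have hc : 3 ≤ (D.leaf v).card := by
    have := h.three_le v
    omega
  obtain ⟨t1, t2, t3, t4⟩ := triple_bounds (h.two_le v) (h.coprime_leaf v) hc
  have hcast : (((D.val v - 2 : ℕ) : ℝ)) = ((D.leaf v).card : ℝ) - 2 := by
    rw [hval, Nat.cast_sub (by omega)]
    norm_num
  have hb : 539 / 21600 ≤ bet D v := by
    unfold bet
    rw [hcast]
    linarith
  have hb2 : 748079 / 2332800000 ≤ bet2 D v := by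
    unfold bet2
    rw [hcast]
    linarith
  have hl : ((D.lk v v : ℤ) : ℝ) ^ 2 = ((lp D v : ℕ) : ℝ) ^ 2 := by
    rw [lkv_sq h v, hnbr, prod_empty, one_pow, mul_one]
  have hlp : (30 : ℝ) ≤ ((lp D v : ℕ) : ℝ) := by exact_mod_cast t3
  have hlp2 : (900 : ℝ) ≤ ((lp D v : ℕ) : ℝ) ^ 2 := by nlinarith
  have hv2 : coeff 2 (part D) - (coeff 1 (part D)) ^ 2 / 2 =
      (60 * bet2 D v + 12 * bet D v ^ 2) * ((lp D v : ℕ) : ℝ) ^ 2 := by
    rw [part_two_exact, huniv, sum_singleton, sum_singleton, sum_singleton, hl]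
    ring
  have hbb : (539 / 21600 : ℝ) ^ 2 ≤ bet D v ^ 2 := pow_le_pow_left₀ (by norm_num) hb 2
  have hcoef : (577 / 21600 : ℝ) ≤ 60 * bet2 D v + 12 * bet D v ^ 2 := by
    norm_num at hbb ⊢
    linarith
  rw [hv2]
  refine ⟨?_, fun he => ?_, fun he => ?_⟩
  · calc (577 / 24 : ℝ) = 577 / 21600 * 900 := by norm_num
      _ ≤ _ := mul_le_mul hcoef hlp2 (by norm_num) (by linarith)
  · refine t4 ?_
    have h5 : 577 / 21600 * ((lp D v : ℕ) : ℝ) ^ 2 ≤ 577 / 24 := by
      rw [← he]
      exact mul_le_mul_of_nonneg_right hcoef (by positivity)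
    have h6 : ((lp D v : ℕ) : ℝ) ^ 2 ≤ 900 := by linarith
    have h7 : ((lp D v : ℕ) : ℝ) ≤ 30 := by nlinarith
    have h8 : lp D v ≤ 30 := by exact_mod_cast h7
    exact le_antisymm h8 t3
  · have h5 : (lp D v : ℝ) = 30 := by
      have : lp D v = 30 := by
        unfold lp
        rw [he]
        decide
      rw [this]
      norm_num
    have h6 : bet D v = 539 / 21600 := by
      unfold bet
      rw [hcast, he, sum_insert (by decide), sum_pair (by decide)]
      norm_num
    have h7 : bet2 D v = 748079 / 2332800000 := by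
      unfold bet2
      rw [hcast, he, sum_insert (by decide), sum_pair (by decide)]
      norm_num
    rw [h5, h6, h7]
    norm_num

/-- The bounds at an end node. -/
private theorem end_bounds {D : Data V} (h : D.IsGraph) {v : V} (hc : (D.nbr v).card = 1) :
    23 / 864 ≤ bet D v ∧ 1199 / 3732480 ≤ bet2 D v ∧ 6 ≤ lp D v ∧
      (lp D v = 6 → D.leaf v = {2, 3}) ∧ ∃ u, D.nbr v = {u} ∧ D.wt v u ≠ 0 ∧
      ((D.lk v v : ℤ) : ℝ) ^ 2 = ((lp D v : ℕ) : ℝ) ^ 2 * ((D.wt v u : ℤ) : ℝ) ^ 2 := by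
  have hval : D.val v = (D.leaf v).card + 1 := by
    unfold Data.val
    rw [hc]
  have hc2 : 2 ≤ (D.leaf v).card := by
    have := h.three_le v
    omega
  obtain ⟨t1, t2, t3, t4⟩ := pair_bounds (h.two_le v) hc2
  have hcast : (((D.val v - 2 : ℕ) : ℝ)) = ((D.leaf v).card : ℝ) - 1 := by
    rw [hval, show (D.leaf v).card + 1 - 2 = (D.leaf v).card - 1 by omega,
      Nat.cast_sub (by omega)]
    norm_num
  obtain ⟨u, hu⟩ := card_eq_one.1 hc
  refine ⟨?_, ?_, t3, t4, u, hu, ?_, ?_⟩
  · unfold bet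
    rw [hcast]
    linarith
  · unfold bet2
    rw [hcast]
    linarith
  · exact wt_ne_zero h (card_pos.1 (by omega)) (by rw [hu]; exact mem_singleton_self u)
  · rw [lkv_sq h v, hu, prod_singleton]

private theorem one_le_sq {z : ℤ} (hz : z ≠ 0) : (1 : ℝ) ≤ (z : ℝ) ^ 2 := by
  have h1 : 0 < z ^ 2 := by positivity
  have h2 : 1 ≤ z ^ 2 := h1
  exact_mod_cast h2

/-- **Two and more nodes.** -/
theorem many_nodes {D : Data V} (h : D.IsGraph) [Nontrivial V] :
    (577 / 24 : ℝ) ≤ coeff 2 (part D) - (coeff 1 (part D)) ^ 2 / 2 ∧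
    (coeff 2 (part D) - (coeff 1 (part D)) ^ 2 / 2 = 577 / 24 → Trefoils D) := by
  obtain ⟨v, w, hvw, hv, hw, hlk⟩ := two_ends h
  obtain ⟨a1, a2, a3, a4, u, hu, hu0, a5⟩ := end_bounds h hv
  obtain ⟨b1, b2, b3, b4, u', hu', hu0', b5⟩ := end_bounds h hw
  set X : ℝ := ((D.lk v v : ℤ) : ℝ) ^ 2 with hX
  set Y : ℝ := ((D.lk w w : ℤ) : ℝ) ^ 2 with hY
  set Z : ℝ := ((D.lk v w : ℤ) : ℝ) ^ 2 with hZ
  have a3' : (6 : ℝ) ≤ ((lp D v : ℕ) : ℝ) := by exact_mod_cast a3
  have b3' : (6 : ℝ) ≤ ((lp D w : ℕ) : ℝ) := by exact_mod_cast b3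
  have hXl : ((lp D v : ℕ) : ℝ) ^ 2 ≤ X := by
    rw [a5]
    exact le_mul_of_one_le_right (by positivity) (one_le_sq hu0)
  have hYl : ((lp D w : ℕ) : ℝ) ^ 2 ≤ Y := by
    rw [b5]
    exact le_mul_of_one_le_right (by positivity) (one_le_sq hu0')
  have hX36 : 36 ≤ X := by nlinarith
  have hY36 : 36 ≤ Y := by nlinarith
  have hZ36 : 1296 ≤ Z := by
    have h1 : (36 : ℤ) ≤ |D.lk v w| := by
      refine le_trans ?_ hlk
      have : 6 * 6 ≤ lp D v * lp D w := Nat.mul_le_mul a3 b3
      exact_mod_cast this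
    have h2 : (36 : ℝ) ≤ |((D.lk v w : ℤ) : ℝ)| := by
      rw [← Int.cast_abs]
      exact_mod_cast h1
    rw [hZ, ← sq_abs]
    nlinarith
  -- the sums
  have hA : bet2 D v * X + bet2 D w * Y ≤ ∑ x, bet2 D x * (D.lk x x : ℝ) ^ 2 := by
    have h1 : ∑ x ∈ ({v, w} : Finset V), bet2 D x * (D.lk x x : ℝ) ^ 2 ≤
        ∑ x, bet2 D x * (D.lk x x : ℝ) ^ 2 :=
      sum_le_sum_of_subset_of_nonneg (subset_univ _) fun x _ _ =>
        mul_nonneg (bet2_nonneg h x) (sq_nonneg _)
    rwa [sum_pair hvw] at h1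
  have hpos : ∀ p : V × V, 0 ≤ bet D p.1 * bet D p.2 * (D.lk p.1 p.2 : ℝ) ^ 2 := fun p =>
    mul_nonneg (mul_nonneg (le_trans (by norm_num) (bet_pos h p.1))
      (le_trans (by norm_num) (bet_pos h p.2))) (sq_nonneg _)
  have hprod : ∑ x, ∑ y, bet D x * bet D y * (D.lk x y : ℝ) ^ 2 =
      ∑ p : V × V, bet D p.1 * bet D p.2 * (D.lk p.1 p.2 : ℝ) ^ 2 := by
    rw [← univ_product_univ, sum_product]
  set Q : Finset (V × V) := {(v, v), (w, w), (v, w), (w, v)} with hQ
  have hQs : ∑ p ∈ Q, bet D p.1 * bet D p.2 * (D.lk p.1 p.2 : ℝ) ^ 2 =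
      bet D v ^ 2 * X + bet D w ^ 2 * Y + 2 * (bet D v * bet D w * Z) := by
    rw [hQ, sum_insert, sum_insert, sum_pair]
    · rw [lk_comm D w v]
      ring
    · intro h1
      exact hvw (Prod.mk.inj h1).1
    · simp [hvw.symm]
    · simp [hvw]
  have hBX : (23 / 864 : ℝ) ^ 2 * X ≤ bet D v ^ 2 * X :=
    mul_le_mul_of_nonneg_right (pow_le_pow_left₀ (by norm_num) a1 2) (by linarith)
  have hBY : (23 / 864 : ℝ) ^ 2 * Y ≤ bet D w ^ 2 * Y :=
    mul_le_mul_of_nonneg_right (pow_le_pow_left₀ (by norm_num) b1 2) (by linarith)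
  have hBZ : (23 / 864 : ℝ) * (23 / 864) * Z ≤ bet D v * bet D w * Z :=
    mul_le_mul_of_nonneg_right (mul_le_mul a1 b1 (by norm_num) (by linarith)) (by linarith)
  have hCX : (1199 / 3732480 : ℝ) * X ≤ bet2 D v * X := mul_le_mul_of_nonneg_right a2 (by linarith)
  have hCY : (1199 / 3732480 : ℝ) * Y ≤ bet2 D w * Y := mul_le_mul_of_nonneg_right b2 (by linarith)
  have hB : ∀ R : Finset (V × V), Q ⊆ R →
      ∑ p ∈ R, bet D p.1 * bet D p.2 * (D.lk p.1 p.2 : ℝ) ^ 2 ≤
        ∑ x, ∑ y, bet D x * bet D y * (D.lk x y : ℝ) ^ 2 := fun R _ => by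
    rw [hprod]
    exact sum_le_sum_of_subset_of_nonneg (subset_univ _) fun p _ _ => hpos p
  have hB0 := hB Q (Subset.refl _)
  rw [hQs] at hB0
  rw [part_two_exact]
  constructor
  · norm_num at hBX hBY hBZ hCX hCY ⊢
    linarith
  · intro he
    have hX' : X ≤ 36 := by
      norm_num at hBX hBY hBZ hCX hCY he ⊢
      linarith
    have hY' : Y ≤ 36 := by
      norm_num at hBX hBY hBZ hCX hCY he ⊢
      linarith
    -- there is no third node
    have hall : ∀ x, x = v ∨ x = w := by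
      intro x
      by_contra hcon
      push Not at hcon
      obtain ⟨y, hy⟩ := exists_lk_ne_zero h x
      have hxy : (x, y) ∉ Q := by
        rw [hQ]
        simp only [mem_insert, mem_singleton, Prod.mk.injEq, not_or, not_and]
        exact ⟨fun h1 => absurd h1 hcon.1, fun h1 => absurd h1 hcon.2,
          fun h1 => absurd h1 hcon.1, fun h1 => absurd h1 hcon.2⟩
      have h1 := hB (insert (x, y) Q) (subset_insert _ _)
      rw [sum_insert hxy, hQs] at h1
      have h2 : 0 < bet D x * bet D y * (D.lk x y : ℝ) ^ 2 := by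
        have e1 := bet_pos h x
        have e2 := bet_pos h y
        have e3 := one_le_sq hy
        have e4 : 0 < bet D x := by linarith
        have e5 : 0 < bet D y := by linarith
        positivity
      norm_num at hBX hBY hBZ hCX hCY he h1
      linarith
    have hcard : Fintype.card V = 2 := by
      have h1 : (univ : Finset V) = {v, w} := by
        ext x
        simpa using hall x
      rw [← card_univ, h1, card_pair hvw]
    -- the weights
    have lpv : lp D v = 6 := by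
      have h1 : ((lp D v : ℕ) : ℝ) ≤ 6 := by nlinarith
      have h2 : lp D v ≤ 6 := by exact_mod_cast h1
      omega
    have lpw : lp D w = 6 := by
      have h1 : ((lp D w : ℕ) : ℝ) ≤ 6 := by nlinarith
      have h2 : lp D w ≤ 6 := by exact_mod_cast h1
      omega
    have huw : u = w := by
      rcases hall u with h1 | h1
      · have h2 : u ∈ D.nbr v := by rw [hu]; exact mem_singleton_self u
        exact absurd h1.symm (mem_nbr.1 h2).ne
      · exact h1
    have huv : u' = v := by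
      rcases hall u' with h1 | h1
      · exact h1
      · have h2 : u' ∈ D.nbr w := by rw [hu']; exact mem_singleton_self u'
        exact absurd h1.symm (mem_nbr.1 h2).ne
    subst huw huv
    have hwt1 : (D.wt u' u) ^ 2 = 1 := by
      have h1 : ((D.wt u' u : ℤ) : ℝ) ^ 2 ≤ 1 := by
        rw [lpv] at a5
        norm_num at a5
        linarith
      have h2 := one_le_sq hu0
      have h3 : ((D.wt u' u : ℤ) : ℝ) ^ 2 = 1 := le_antisymm h1 h2
      exact_mod_cast h3
    have hwt2 : (D.wt u u') ^ 2 = 1 := by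
      have h1 : ((D.wt u u' : ℤ) : ℝ) ^ 2 ≤ 1 := by
        rw [lpw] at b5
        norm_num at b5
        linarith
      have h2 := one_le_sq hu0'
      have h3 : ((D.wt u u' : ℤ) : ℝ) ^ 2 = 1 := le_antisymm h1 h2
      exact_mod_cast h3
    refine ⟨hcard, fun x => ?_, fun x y hxy => ?_⟩
    · rcases hall x with rfl | rfl
      · exact a4 lpv
      · exact b4 lpw
    · rcases hall x with rfl | rfl
      · rcases hall y with rfl | rfl
        · exact absurd rfl hxy
        · exact hwt1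
      · rcases hall y with rfl | rfl
        · exact hwt2
        · exact absurd rfl hxy

/-- The value for the splices of two trefoil exteriors. -/
theorem trefoils_value {D : Data V} (h : D.IsGraph) (hT : Trefoils D) :
    coeff 2 (part D) - (coeff 1 (part D)) ^ 2 / 2 = 577 / 24 := by
  classical
  obtain ⟨hcard, hleaf, hwt⟩ := hT
  obtain ⟨v, w, hvw, huniv⟩ : ∃ v w : V, v ≠ w ∧ (univ : Finset V) = {v, w} := by
    rw [← card_univ] at hcard
    exact card_eq_two.1 hcard
  have hall : ∀ x, x = v ∨ x = w := fun x => by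
    have : x ∈ (univ : Finset V) := mem_univ x
    rw [huniv] at this
    simpa using this
  have hnt : Nontrivial V := ⟨v, w, hvw⟩
  have hnb : ∀ {x y : V}, x ≠ y → D.nbr x = {y} := by
    intro x y hxy
    have hother : ∀ z, z ≠ x → z = y := by
      intro z hz
      rcases hall x with rfl | rfl <;> rcases hall y with rfl | rfl <;> rcases hall z with h1 | h1 <;>
        first | exact h1 | exact absurd rfl hxy | exact absurd h1 hz
    have hdeg : 0 < D.graph.degree x :=
      h.tree.connected.preconnected.degree_pos_of_nontrivial x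
    have hdeg' : 0 < (D.graph.neighborFinset x).card := by
      rw [SimpleGraph.card_neighborFinset_eq_degree]
      exact hdeg
    obtain ⟨z, hz⟩ := card_pos.1 hdeg'
    have hz' : D.graph.Adj x z := by simpa using hz
    have hzy : z = y := hother z hz'.ne'
    ext t
    rw [mem_singleton]
    constructor
    · intro ht
      exact hother t (mem_nbr.1 ht).ne'
    · rintro rfl
      rw [← hzy]
      exact mem_nbr.2 hz'
  have hlp : ∀ x, lp D x = 6 := fun x => by
    unfold lp
    rw [hleaf x]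
    decide
  have hself : ∀ {x y : V}, x ≠ y → ((D.lk x x : ℤ) : ℝ) ^ 2 = 36 := by
    intro x y hxy
    rw [lkv_sq h x, hnb hxy, prod_singleton, hlp x]
    have h1 : ((D.wt x y : ℤ) : ℝ) ^ 2 = 1 := by exact_mod_cast hwt x y hxy
    rw [h1]
    norm_num
  have hoth : ∀ {x y : V}, x ≠ y → ((oth D x y : ℤ) : ℝ) ^ 2 = 36 := by
    intro x y hxy
    unfold oth
    rw [hnb hxy, erase_singleton, prod_empty, mul_one, hleaf x]
    have hs : (D.sgn x) ^ 2 = 1 := by
      rcases h.sign x with h' | h' <;> rw [h'] <;> norm_num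
    have hs' : ((D.sgn x : ℤ) : ℝ) ^ 2 = 1 := by exact_mod_cast hs
    rw [prod_pair (by decide)]
    push_cast
    rw [mul_pow, hs']
    norm_num
  have hcross : ∀ {x y : V}, x ≠ y → ((D.lk x y : ℤ) : ℝ) ^ 2 = 1296 := by
    intro x y hxy
    have hm : y ∈ D.nbr x := by rw [hnb hxy]; exact mem_singleton_self y
    rw [lk_adj h hm]
    push_cast
    rw [mul_pow, hoth hxy, hoth hxy.symm]
    norm_num
  have hval : ∀ {x y : V}, x ≠ y → (((D.val x - 2 : ℕ) : ℝ)) = 1 := by
    intro x y hxy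
    unfold Data.val
    rw [hnb hxy, hleaf x]
    norm_num
  have hb : ∀ {x y : V}, x ≠ y → bet D x = 23 / 864 := by
    intro x y hxy
    unfold bet
    rw [hval hxy, hleaf x, sum_pair (by decide)]
    norm_num
  have hb2 : ∀ {x y : V}, x ≠ y → bet2 D x = 1199 / 3732480 := by
    intro x y hxy
    unfold bet2
    rw [hval hxy, hleaf x, sum_pair (by decide)]
    norm_num
  rw [part_two_exact, huniv, sum_pair hvw, sum_pair hvw, sum_pair hvw, sum_pair hvw, hb hvw,
    hb hvw.symm, hb2 hvw, hb2 hvw.symm, hself hvw, hself hvw.symm, hcross hvw, hcross hvw.symm]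
  norm_num

/-- **The sharp bound**, with the cases of equality. -/
theorem sharp {D : Data V} [Nonempty V] (h : D.IsGraph) :
    (577 / 24 : ℝ) ≤ coeff 2 (part D) - (coeff 1 (part D)) ^ 2 / 2 ∧
    (coeff 2 (part D) - (coeff 1 (part D)) ^ 2 / 2 = 577 / 24 ↔ Poinc D ∨ Trefoils D) := by
  by_cases hV : ∀ v w : V, v = w
  · obtain ⟨v⟩ := ‹Nonempty V›
    obtain ⟨h1, h2⟩ := one_node h hV v
    refine ⟨h1, h2.trans ⟨fun h3 => Or.inl ⟨hV, fun w => ?_⟩, ?_⟩⟩
    · rw [hV w v]
      exact h3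
    · rintro (h3 | h3)
      · exact h3.2 v
      · have h4 := h3.1
        have h5 : Fintype.card V ≤ 1 := Fintype.card_le_one_iff.2 hV
        omega
  · push Not at hV
    obtain ⟨v, w, hvw⟩ := hV
    have hnt : Nontrivial V := ⟨v, w, hvw⟩
    obtain ⟨h1, h2⟩ := many_nodes h
    refine ⟨h1, fun h3 => Or.inr (h2 h3), ?_⟩
    rintro (h3 | h3)
    · exact absurd (h3.1 v w) hvw
    · exact trefoils_value h h3

end Pool.Agent.H42.GS
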