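import Pool.Agent.OHG.All

/-!
# Two end nodes with a nonzero linking number

In the splice diagram of a prime graph integral homology sphere with at least two nodes there are two
end nodes whose linking number is not `0` (it is at least the product of the leaf weights at the two
nodes in absolute value): start at an end node and leave every node through its edge of weight `0`,
if there is one.
-/

set_option autoImplicit false

open Finset

namespace Pool.Agent.H42.GS

open Pool.Agent.OHG

variable {V : Type} [Fintype V] [DecidableEq V]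

/-- In a tree, of two neighbours one lies on the path from the other one to `y`. -/
theorem on_or_on {D : Data V} (h : D.IsGraph) {w x : V} (y : V) (hx : x ∈ D.nbr w) :
    D.On w y x ∨ D.On x y w := by
  classical
  have hadj : D.graph.Adj w x := mem_nbr.1 hx
  have hd : D.graph.dist w x = 1 := SimpleGraph.dist_eq_one_iff_adj.2 hadj
  obtain ⟨p, hp⟩ := h.tree.connected.exists_walk_length_eq_dist w y
  have hpp : p.IsPath := SimpleGraph.Walk.isPath_of_length_eq_dist _ hp
  have tri := fun a b c => h.tree.connected.dist_triangle (u := a) (v := b) (w := c)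
  by_cases hxs : x ∈ p.support
  · left
    have h1 : (p.takeUntil x hxs).length + (p.dropUntil x hxs).length = p.length := by
      rw [← SimpleGraph.Walk.length_append, SimpleGraph.Walk.take_spec]
    have h2 := SimpleGraph.dist_le (p.takeUntil x hxs)
    have h3 := SimpleGraph.dist_le (p.dropUntil x hxs)
    have h4 := tri w x y
    unfold Data.On
    omega
  · right
    have h1 : (SimpleGraph.Walk.cons hadj.symm p).IsPath :=
      (SimpleGraph.Walk.cons_isPath_iff _ _).2 ⟨hpp, hxs⟩
    obtain ⟨q, hq⟩ := h.tree.connected.exists_walk_length_eq_dist x y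
    have hqp : q.IsPath := SimpleGraph.Walk.isPath_of_length_eq_dist _ hq
    have e := (h.tree.isAcyclic.subsingleton_path x y).elim ⟨_, h1⟩ ⟨_, hqp⟩
    have e' : SimpleGraph.Walk.cons hadj.symm p = q := congrArg Subtype.val e
    rw [← e', SimpleGraph.Walk.length_cons, hp] at hq
    unfold Data.On
    rw [SimpleGraph.dist_comm, hd]
    omega

private theorem key {G : SimpleGraph V} (hG : G.IsTree) {v w y u : V} (hwv : G.Adj w v)
    (h1 : G.dist w v + G.dist v y = G.dist w y) (h2 : G.dist w u + G.dist u y = G.dist w y)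
    (hu : u ≠ w) : G.dist v u + 1 = G.dist w u := by
  obtain ⟨p, hp⟩ := hG.connected.exists_walk_length_eq_dist w u
  obtain ⟨q, hq⟩ := hG.connected.exists_walk_length_eq_dist u y
  obtain ⟨r, hr⟩ := hG.connected.exists_walk_length_eq_dist v y
  have hd : G.dist w v = 1 := SimpleGraph.dist_eq_one_iff_adj.2 hwv
  cases p with
  | nil => exact absurd rfl hu
  | cons h p' =>
    have e1 : ((SimpleGraph.Walk.cons h p').append q).IsPath :=
      SimpleGraph.Walk.isPath_of_length_eq_dist _ (by
        rw [SimpleGraph.Walk.length_append, hp, hq, h2])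
    have e2 : (SimpleGraph.Walk.cons hwv r).IsPath :=
      SimpleGraph.Walk.isPath_of_length_eq_dist _ (by
        rw [SimpleGraph.Walk.length_cons, hr, ← h1, hd, add_comm])
    have e := (hG.isAcyclic.subsingleton_path _ _).elim ⟨_, e1⟩ ⟨_, e2⟩
    have e' : (SimpleGraph.Walk.cons h p').append q = SimpleGraph.Walk.cons hwv r :=
      congrArg Subtype.val e
    have hv := congrArg (fun W => SimpleGraph.Walk.getVert W 1) e'
    simp at hv
    have h4 := hG.connected.dist_triangle (u := w) (v := v) (w := u)
    subst hv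
    have h3 := SimpleGraph.dist_le p'
    rw [SimpleGraph.Walk.length_cons] at hp
    omega

/-- The nodes on the path from `x` to `y`, if `w` is the first one after `x`. -/
theorem on_iff {D : Data V} (h : D.IsGraph) {w x y : V} (hx : x ∈ D.nbr w) (hy : D.On x y w)
    (u : V) : D.On x y u ↔ u = x ∨ D.On w y u := by
  have hadj : D.graph.Adj w x := mem_nbr.1 hx
  have hd : D.graph.dist x w = 1 := SimpleGraph.dist_eq_one_iff_adj.2 hadj.symm
  have hyd : D.graph.dist x w + D.graph.dist w y = D.graph.dist x y := hy
  have tri := fun a b c => h.tree.connected.dist_triangle (u := a) (v := b) (w := c)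
  constructor
  · intro h1
    by_cases hu : u = x
    · exact Or.inl hu
    · right
      have h2 := key h.tree hadj.symm hyd h1 hu
      have h3 : D.graph.dist x u + D.graph.dist u y = D.graph.dist x y := h1
      change D.graph.dist w u + D.graph.dist u y = D.graph.dist w y
      omega
  · rintro (rfl | h1)
    · change D.graph.dist u u + D.graph.dist u y = D.graph.dist u y
      rw [SimpleGraph.dist_self, zero_add]
    · have h3 : D.graph.dist w u + D.graph.dist u y = D.graph.dist w y := h1
      have h4 := tri x w u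
      have h5 := tri x u y
      change D.graph.dist x u + D.graph.dist u y = D.graph.dist x y
      omega

/-- The neighbours of `w` on the path to `y ≠ w`: at most one. -/
theorem side_unique {D : Data V} (h : D.IsGraph) {w y x x' : V} (hx : x ∈ D.nbr w)
    (hx' : x' ∈ D.nbr w) (ho : D.On w y x) (ho' : D.On w y x') : x = x' := by
  have hd : D.graph.dist w x = 1 := SimpleGraph.dist_eq_one_iff_adj.2 (mem_nbr.1 hx)
  have hne : x' ≠ w := (mem_nbr.1 hx').ne'
  have h1 := key h.tree (mem_nbr.1 hx) ho ho' hne
  have hd' : D.graph.dist w x' = 1 := SimpleGraph.dist_eq_one_iff_adj.2 (mem_nbr.1 hx')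
  have h2 : D.graph.dist x x' = 0 := by omega
  exact (h.tree.connected.dist_eq_zero_iff).1 h2

/-- All weights which are adjacent to the path from `w` to `y`, not on it, and not at `w`. -/
private def NZ (D : Data V) (y w : V) : Prop :=
  ∀ u, D.On w y u → u ≠ w → ∀ x ∈ D.nbr u, ¬ D.On w y x → D.wt u x ≠ 0

private theorem on_self {D : Data V} (h : D.IsGraph) (v u : V) : D.On v v u ↔ u = v := by
  unfold Data.On
  rw [SimpleGraph.dist_self]
  constructor
  · intro h0
    have h1 : D.graph.dist v u = 0 := by omega
    exact ((h.tree.connected.dist_eq_zero_iff).mp h1).symm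
  · rintro rfl
    simp

/-- The step of the walk. -/
private theorem step {D : Data V} (h : D.IsGraph) {y w : V} (hw : NZ D y w)
    (hex : ∃ x ∈ D.nbr w, ¬ D.On w y x) :
    ∃ x, NZ D y x ∧ D.graph.dist x y = D.graph.dist w y + 1 := by
  obtain ⟨x, hx, hnx, hbest⟩ : ∃ x ∈ D.nbr w, ¬ D.On w y x ∧
      ∀ z ∈ D.nbr w, ¬ D.On w y z → z ≠ x → D.wt w z ≠ 0 := by
    by_cases h0 : ∃ x ∈ D.nbr w, ¬ D.On w y x ∧ D.wt w x = 0
    · obtain ⟨x, hx, hnx, hz⟩ := h0
      refine ⟨x, hx, hnx, fun z hz' _ hne h1 => ?_⟩
      have h2 := h.coprime_edge w z hz' x hx hne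
      rw [h1, hz] at h2
      exact not_isCoprime_zero_zero h2
    · obtain ⟨x, hx, hnx⟩ := hex
      refine ⟨x, hx, hnx, fun z hz hnz _ h1 => h0 ⟨z, hz, hnz, h1⟩⟩
  have ho : D.On x y w := (on_or_on h y hx).resolve_left hnx
  have hd : D.graph.dist x w = 1 :=
    SimpleGraph.dist_eq_one_iff_adj.2 (mem_nbr.1 hx).symm
  refine ⟨x, fun u hu hne z hz hnz => ?_, ?_⟩
  · rw [on_iff h hx ho] at hu
    rw [on_iff h hx ho, not_or] at hnz
    have hu' : D.On w y u := hu.resolve_left hne
    by_cases huw : u = w
    · subst huw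
      exact hbest z hz hnz.2 hnz.1
    · exact hw u hu' huw z hz hnz.2
  · have : D.graph.dist x w + D.graph.dist w y = D.graph.dist x y := ho
    omega

/-- From every node `y` there is a walk to an end node `w` along which all adjacent weights, except
those at `w`, are nonzero. -/
private theorem exists_end {D : Data V} (h : D.IsGraph) (y : V) :
    ∃ w, NZ D y w ∧ ∀ x ∈ D.nbr w, D.On w y x := by
  classical
  have hne : (univ.filter fun w => NZ D y w).Nonempty := by
    refine ⟨y, ?_⟩
    rw [mem_filter]
    refine ⟨mem_univ _, fun u hu hne => ?_⟩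
    rw [on_self h] at hu
    exact absurd hu hne
  obtain ⟨w, hw, hmax⟩ := exists_max_image _ (fun w => D.graph.dist w y) hne
  rw [mem_filter] at hw
  refine ⟨w, hw.2, ?_⟩
  by_contra hcon
  push Not at hcon
  obtain ⟨x, hx1, hx2⟩ := step h hw.2 hcon
  have := hmax x (by rw [mem_filter]; exact ⟨mem_univ _, hx1⟩)
  omega

omit [DecidableEq V] in
theorem wt_ne_zero {D : Data V} (h : D.IsGraph) {v w : V} (hl : (D.leaf v).Nonempty)
    (hw : w ∈ D.nbr v) : D.wt v w ≠ 0 := by
  intro h0
  obtain ⟨k, hk⟩ := hl
  have h1 := h.coprime_mixed v k hk w hw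
  rw [h0, isCoprime_zero_right, Int.isUnit_iff] at h1
  have h2 := h.two_le v k hk
  omega

/-- The product of the leaf weights. -/
def lp (D : Data V) (v : V) : ℕ := ∏ k ∈ D.leaf v, k

/-- **Two end nodes.** In a diagram with at least two nodes there are two different nodes `v`, `w`
with one edge each and `|ℓ_vw| ≥ lp v * lp w`. -/
theorem two_ends {D : Data V} (h : D.IsGraph) [Nontrivial V] :
    ∃ v w, v ≠ w ∧ (D.nbr v).card = 1 ∧ (D.nbr w).card = 1 ∧
      ((lp D v * lp D w : ℕ) : ℤ) ≤ |D.lk v w| := by
  classical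
  obtain ⟨y, hy⟩ := h.tree.exists_vert_degree_one_of_nontrivial
  have hyc : (D.nbr y).card = 1 := by
    have h1 : D.nbr y = D.graph.neighborFinset y := by
      ext w
      rw [mem_nbr, SimpleGraph.mem_neighborFinset]
    rw [h1, SimpleGraph.card_neighborFinset_eq_degree, hy]
  obtain ⟨w, hw, hall⟩ := exists_end h y
  have hwy : w ≠ y := by
    rintro rfl
    obtain ⟨x, hx⟩ := card_pos.1 (show 0 < (D.nbr w).card by omega)
    have h1 := hall x hx
    rw [on_self h] at h1
    exact (mem_nbr.1 hx).ne' h1
  have hwc : (D.nbr w).card ≤ 1 := by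
    rw [card_le_one]
    exact fun a ha b hb => side_unique h ha hb (hall a ha) (hall b hb)
  have hwp : (D.nbr w).card = 1 := by
    have h1 : 0 < D.graph.degree w := by
      exact h.tree.connected.preconnected.degree_pos_of_nontrivial w
    have h2 : D.nbr w = D.graph.neighborFinset w := by
      ext x
      rw [mem_nbr, SimpleGraph.mem_neighborFinset]
    rw [← SimpleGraph.card_neighborFinset_eq_degree, ← h2] at h1
    omega
  refine ⟨w, y, hwy, hwp, hyc, ?_⟩
  have hsgn : ∀ u, D.sgn u ≠ 0 := fun u => by
    rcases h.sign u with h1 | h1 <;> rw [h1] <;> decide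
  have hleaf : ∀ u, ∏ k ∈ D.leaf u, (k : ℤ) ≠ 0 := fun u => by
    refine prod_ne_zero_iff.2 fun k hk => ?_
    have := h.two_le u k hk
    omega
  have hyl : (D.leaf y).Nonempty := by
    have := h.three_le y
    unfold Data.val at this
    exact card_pos.1 (by omega)
  -- the factors
  set f : V → ℤ := fun u =>
    D.sgn u * (∏ k ∈ D.leaf u, (k : ℤ)) * ∏ x ∈ D.nbr u with ¬ D.On w y x, D.wt u x with hf
  have hf0 : ∀ u, D.On w y u → f u ≠ 0 := by
    intro u hu
    refine mul_ne_zero (mul_ne_zero (hsgn u) (hleaf u)) (prod_ne_zero_iff.2 fun x hx => ?_)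
    rw [mem_filter] at hx
    by_cases huw : u = w
    · subst huw
      exact absurd (hall x hx.1) hx.2
    · exact hw u hu huw x hx.1 hx.2
  have hlk : D.lk w y = ∏ u with D.On w y u, f u := rfl
  have hne0 : D.lk w y ≠ 0 := by
    rw [hlk]
    exact prod_ne_zero_iff.2 fun u hu => hf0 u (mem_filter.1 hu).2
  have hfd : ∀ u, ((lp D u : ℕ) : ℤ) ∣ f u := by
    intro u
    unfold lp
    rw [Nat.cast_prod]
    exact Dvd.dvd.mul_right (Dvd.intro_left _ rfl) _
  have hpair : ((lp D w * lp D y : ℕ) : ℤ) ∣ D.lk w y := by
    rw [hlk]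
    have h1 : ({w, y} : Finset V) ⊆ univ.filter fun u => D.On w y u := by
      intro u hu
      rw [mem_insert, mem_singleton] at hu
      rw [mem_filter]
      refine ⟨mem_univ _, ?_⟩
      rcases hu with rfl | rfl
      · unfold Data.On
        rw [SimpleGraph.dist_self, zero_add]
      · unfold Data.On
        rw [SimpleGraph.dist_self, add_zero]
    refine dvd_trans ?_ (prod_dvd_prod_of_subset _ _ f h1)
    rw [prod_pair hwy, Nat.cast_mul]
    exact mul_dvd_mul (hfd w) (hfd y)
  exact Int.le_of_dvd (abs_pos.2 hne0) ((dvd_abs _ _).2 hpair)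

end Pool.Agent.H42.GS
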